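import Pool.Agent.T2H75.GN.Fin

/-!
MP_a226eb_gt, Q1: a two-parameter family of cubic graphs which carry closed geodesic nets on the
round three-sphere, the honeycomb toroidal graphs with `2k` rows of length `2m`, `2 ≤ k < m`.
-/

namespace Pool.Agent.Results.MP_a226eb_gt.BrickWallNets

open Pool.Agent.T2H75.GN

theorem result : ∀ (m k : ℕ) [NeZero m] [NeZero k], 2 ≤ k → k < m →
    (brick m k).Connected ∧ Cubic (brick m k) ∧
      ∃ p : ZMod (2 * m) × ZMod (2 * k) → ℂ × ℂ, IsNet (brick m k) p :=
  brick_nets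

end Pool.Agent.Results.MP_a226eb_gt.BrickWallNets
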