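import Pool.Agent.T2H75.GN.FlowDef
import Pool.Agent.T2H75.GN.FLOW1
import Pool.Agent.T2H75.GN.FLOW2S
import Pool.Agent.T2H75.GN.Fin5

/-!
MP_a226eb_gt, Q1: the flow criterion.  (a) The underlying multigraph of every balanced geodesic net
on `S³` (arbitrary segments, embedded or not) has a unit vector flow in `ℝ³`.  (b) Every cubic
multigraph with a unit vector flow is the underlying graph of a balanced geodesic net on the great
two-sphere `Re z = 0`, with crossings and coinciding vertices allowed.  (c) For embedded nets the condition is not sufficient: the necklace with `k` digons is cubic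
and has a unit vector flow for all `k ≥ 2`, but it carries an embedded net if and only if `k` is odd.
-/

namespace Pool.Agent.Results.MP_a226eb_gt.FlowCriterion

open Pool.Agent.T2H75.GN

theorem result :
    (∀ (V E : Type) [Fintype V] [Fintype E] (N : GeoNet V E),
      ∃ f : E → Fin 3 → ℝ, IsUnitFlow N.src N.tgt f) ∧
    (∀ (V E : Type) [Fintype V] [Fintype E] (src tgt : E → V), IsCubicMulti src tgt →
      (∃ f : E → Fin 3 → ℝ, IsUnitFlow src tgt f) →
      ∃ N : GeoNet V E, N.src = src ∧ N.tgt = tgt ∧ (∀ v, (N.pos v).1.re = 0) ∧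
        ∀ e, (N.dir e).1.re = 0) ∧
    ∀ (k : ℕ) [NeZero k], 2 ≤ k →
      IsCubicMulti (nsrc k) (ntgt k) ∧
      (∃ f : ZMod k × Fin 3 → Fin 3 → ℝ, IsUnitFlow (nsrc k) (ntgt k) f) ∧
      ((∃ N : GeoNet (ZMod k × Bool) (ZMod k × Fin 3),
        N.src = nsrc k ∧ N.tgt = ntgt k ∧ N.Embedded) ↔ Odd k) := by
  refine ⟨fun V E _ _ N => ?_, fun V E _ _ src tgt hc hf => ?_, fun k _ hk => ?_⟩
  · obtain ⟨f, h1, h2⟩ := flow1 V E N
    exact ⟨f, h1, h2⟩
  · obtain ⟨f, hf⟩ := hf
    exact flow2s V E src tgt f hc hf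
  · exact ⟨necklace_cubic k hk, necklace_flow k hk, necklace_complete k hk⟩

end Pool.Agent.Results.MP_a226eb_gt.FlowCriterion
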