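import Pool.Agent.T2H75.GN.Fin3

/-!
MP_a226eb_gt, Q1: generalised Petersen graphs `GP(n, k)` which carry closed geodesic nets on the
round three-sphere: all prisms `GP(n, 1)`, `n ≥ 5`, and all `GP(n, k)` with `k k' = ± 1 mod n` and
`cos (2πk/n), cos (2πk'/n) < cos (2π/n) - 1`, for instance the Petersen graph `GP(5, 2)`, the
Moebius-Kantor graph `GP(8, 3)`, the Desargues graph `GP(10, 3)` and the Nauru graph `GP(12, 5)`.
-/

namespace Pool.Agent.Results.MP_a226eb_gt.GenPetersenNets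

open Pool.Agent.T2H75.GN ZMod

theorem result : ∀ (n : ℕ) [NeZero n], 5 ≤ n →
    ∀ k k' : ZMod n, (k * k' = 1 ∨ k * k' = -1) →
    (k = 1 ∨ ((stdAddChar k : ℂ).re < (stdAddChar (1 : ZMod n) : ℂ).re - 1 ∧
      (stdAddChar k' : ℂ).re < (stdAddChar (1 : ZMod n) : ℂ).re - 1)) →
    (petersen n k).Connected ∧ Cubic (petersen n k) ∧
      ∃ p : ZMod n × Bool → ℂ × ℂ, IsNet (petersen n k) p :=
  petersen_all

end Pool.Agent.Results.MP_a226eb_gt.GenPetersenNets
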