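import Pool.Agent.T2H75.GN.Fin3

/-!
MP_a226eb_gt, Q1: every Moebius ladder with `2m` vertices, `m ≥ 3`, carries a closed geodesic net on
the round three-sphere (`m = 3` is `K_{3,3}`, `m = 4` the Wagner graph).
-/

namespace Pool.Agent.Results.MP_a226eb_gt.MoebiusLadderNets

open Pool.Agent.T2H75.GN

theorem result : ∀ (m : ℕ) [NeZero m], 3 ≤ m →
    (moebius m).Connected ∧ Cubic (moebius m) ∧
      ∃ p : ZMod (2 * m) → ℂ × ℂ, IsNet (moebius m) p :=
  moebius_all

end Pool.Agent.Results.MP_a226eb_gt.MoebiusLadderNets
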